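import Pool.Agent.MDG.Stmts

/-!
# Squad MDG, row RS5: residues modulo 34 (helper46)
-/

set_option autoImplicit false

namespace Pool.Agent.MDG.H46

open Finset Pool.Agent.HEC Pool.Agent.MDG

/-- codes of the classes on one side -/
abbrev Cd : Type := Bool × Bool × Bool × Bool

/-- basic residue -/
def rh (b : Bool) (k : Cd) : ℤ := rho b k.1 k.2.1 k.2.2.1 k.2.2.2

/-- the raised residue -/
def tg (b : Bool) : ℤ := if b = true then 17 else 0

theorem rh_bd : ∀ (b : Bool) (k : Cd), 1 ≤ rh b k ∧ rh b k ≤ 33 ∧ rh b k ≠ 17 := by decide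

theorem rh_inv : ∀ (b : Bool) (k : Cd), ∃ m : Fin 34,
    ((tg b - rh b k) * ((m : ℕ) : ℤ) - 1) % 34 = 0 := by decide

theorem rh_inj : ∀ (k k' : Cd) (b b' : Bool), rh b k = rh b' k' → b = b' ∧ k = k' := by decide

theorem exR {V : Type} [Fintype V] (P : V → Prop) [DecidablePred P] (cl : V → Cd)
    (hP : 528 < (univ.filter P).card) (d : Cd → ℤ)
    (hd : ∀ k, ∃ m : ℤ, (34 : ℤ) ∣ d k * m - 1) (T : ℤ) :
    ∃ (k : Cd) (R : Finset V), (∀ v ∈ R, P v ∧ cl v = k) ∧ (34 : ℤ) ∣ T + R.card * d k := by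
  classical
  obtain ⟨k, -, hk⟩ := Finset.exists_le_card_fiber_of_mul_le_card_of_maps_to
    (s := univ.filter P) (t := (univ : Finset Cd)) (f := cl)
    (n := 33) (fun _ _ => mem_univ _) univ_nonempty (by simp; omega)
  obtain ⟨m, e, he⟩ := hd k
  have hq0 : 0 ≤ (-T * m) % 34 := Int.emod_nonneg _ (by norm_num)
  have hq1 : (-T * m) % 34 < 34 := Int.emod_lt_of_pos _ (by norm_num)
  have hq2 : (-T * m) % 34 + 34 * ((-T * m) / 34) = -T * m := Int.emod_add_mul_ediv _ _
  obtain ⟨q, hq⟩ := Int.eq_ofNat_of_zero_le hq0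
  rw [hq] at hq1 hq2
  have hq33 : q ≤ 33 := by omega
  obtain ⟨R, hR, hRc⟩ := Finset.exists_subset_card_eq (hq33.trans hk)
  refine ⟨k, R, ?_, ?_⟩
  · intro v hv
    have := hR hv
    rw [Finset.mem_filter, Finset.mem_filter] at this
    exact ⟨this.1.2, this.2⟩
  · rw [hRc]
    refine ⟨-T * e - ((-T * m) / 34) * d k, ?_⟩
    have h1 : (q : ℤ) = -T * m - 34 * ((-T * m) / 34) := by
      have : (Int.ofNat q : ℤ) = (q : ℤ) := rfl
      linarith [hq2]
    rw [h1]
    linear_combination (-T) * he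

theorem cnt_eq {α : Type} [Fintype α] (p : α → Prop) [DecidablePred p] :
    cnt p = (univ.filter p).card := by
  unfold cnt
  congr

theorem S_adj {V : Type} [Fintype V] {G : SimpleGraph V} (N : Nest5 G) (u v : V) :
    N.S.Adj u v ↔ G.Adj u v ∧ N.t1 u = N.t1 v ∧ N.t2 u = N.t2 v ∧ N.t3 u = N.t3 v ∧
      N.t4 u = N.t4 v ∧ N.t5 u = N.t5 v := by
  simp only [Nest5.S, sam]
  tauto

theorem rs5 : Rs5Stmt := by
  classical
  intro V _ G N p low a τ τ' hlow
  let cl : V → Cd := fun v => (N.t2 v, N.t3 v, N.t4 v, N.t5 v)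
  have hc0 : ∀ v, N.c0 v = rh (N.t1 v) (cl v) := fun v => rfl
  let ts : Bool → V → ℤ := fun b w => if b = true then τ w else τ' w
  let T : V → Bool → ℤ := fun w b => ∑ v, (if p v = w ∧ N.t1 v = b then N.c0 v - a v else 0)
  have hcard : ∀ (w : V) (b : Bool), low w →
      528 < (univ.filter fun v => p v = w ∧ N.t1 v = b ∧ ∀ u, G.Adj v u → p u = w).card := by
    intro w b hw
    have h := hlow w hw
    rw [cnt_eq, cnt_eq] at h
    cases b
    · exact h.2
    · exact h.1
  have hdi : ∀ (b : Bool) (k : Cd), ∃ m : ℤ, (34 : ℤ) ∣ (tg b - rh b k) * m - 1 := by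
    intro b k
    obtain ⟨m, hm⟩ := rh_inv b k
    exact ⟨((m : ℕ) : ℤ), Int.dvd_of_emod_eq_zero hm⟩
  have H : ∀ (w : V) (b : Bool), low w → ∃ (k : Cd) (R : Finset V),
      (∀ v ∈ R, (p v = w ∧ N.t1 v = b ∧ ∀ u, G.Adj v u → p u = w) ∧ cl v = k) ∧
      (34 : ℤ) ∣ (T w b - ts b w) + R.card * (tg b - rh b k) := by
    intro w b hw
    exact exR _ cl (hcard w b hw) (fun k => tg b - rh b k) (hdi b) _
  choose! k R hR hdiv using H
  let c : V → ℤ := fun v => if low (p v) ∧ v ∈ R (p v) (N.t1 v) then tg (N.t1 v) else N.c0 v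
  have hraise : ∀ v, (low (p v) ∧ v ∈ R (p v) (N.t1 v)) → c v = tg (N.t1 v) := fun v hv => if_pos hv
  have hnot : ∀ v, ¬ (low (p v) ∧ v ∈ R (p v) (N.t1 v)) → c v = rh (N.t1 v) (cl v) :=
    fun v hv => (if_neg hv).trans (hc0 v)
  have hone : ∀ (b b' : Bool) (κ : Cd), ¬ (34 : ℤ) ∣ tg b - rh b' κ := by
    intro b b' κ hd
    have h1 := rh_bd b' κ
    cases b
    · simp only [tg, Bool.false_eq_true, if_false] at hd
      omega
    · simp only [tg, if_true] at hd
      omega
  refine ⟨c, ?_, ?_, ?_⟩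
  · intro u v huv hS hd
    rw [S_adj] at hS
    have hne : ¬ (N.t1 u = N.t1 v ∧ cl u = cl v) := by
      rintro ⟨h1, h2⟩
      apply hS
      simp only [cl, Prod.mk.injEq] at h2
      exact ⟨huv, h1, h2⟩
    by_cases hu : low (p u) ∧ u ∈ R (p u) (N.t1 u)
    · by_cases hv : low (p v) ∧ v ∈ R (p v) (N.t1 v)
      · rw [hraise u hu, hraise v hv] at hd
        have hu' := hR (p u) (N.t1 u) hu.1 u hu.2
        have hpv : p v = p u := hu'.1.2.2 v huv
        have hv' := hR (p v) (N.t1 v) hv.1 v hv.2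
        by_cases ht : N.t1 u = N.t1 v
        · apply hne
          refine ⟨ht, ?_⟩
          rw [hu'.2, hv'.2, hpv, ht]
        · cases h1 : N.t1 u <;> cases h2 : N.t1 v
          · exact ht (h1.trans h2.symm)
          · rw [h1, h2] at hd
            simp only [tg, Bool.false_eq_true, if_false, if_true] at hd
            omega
          · rw [h1, h2] at hd
            simp only [tg, Bool.false_eq_true, if_false, if_true] at hd
            omega
          · exact ht (h1.trans h2.symm)
      · rw [hraise u hu, hnot v hv] at hd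
        exact hone _ _ _ hd
    · by_cases hv : low (p v) ∧ v ∈ R (p v) (N.t1 v)
      · rw [hnot u hu, hraise v hv] at hd
        apply hone (N.t1 v) (N.t1 u) (cl u)
        have := (dvd_neg (α := ℤ)).2 hd
        rwa [neg_sub] at this
      · rw [hnot u hu, hnot v hv] at hd
        have h1 := rh_bd (N.t1 u) (cl u)
        have h2 := rh_bd (N.t1 v) (cl v)
        have h3 : rh (N.t1 u) (cl u) = rh (N.t1 v) (cl v) := by omega
        exact hne (rh_inj _ _ _ _ h3)
  · intro v hv
    exact if_neg fun h => hv h.1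
  · have hsum : ∀ (w : V) (b : Bool), low w →
        (34 : ℤ) ∣ ∑ v, (if p v = w ∧ N.t1 v = b then c v - a v else 0) - ts b w := by
      intro w b hw
      have h2 : ∀ v, (if p v = w ∧ N.t1 v = b then c v - a v else 0) =
          (if p v = w ∧ N.t1 v = b then N.c0 v - a v else 0) +
            (if v ∈ R w b then (tg b - rh b (k w b)) else 0) := by
        intro v
        by_cases hv : v ∈ R w b
        · have hv' := hR w b hw v hv
          have hr : low (p v) ∧ v ∈ R (p v) (N.t1 v) := by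
            rw [hv'.1.1, hv'.1.2.1]
            exact ⟨hw, hv⟩
          rw [if_pos ⟨hv'.1.1, hv'.1.2.1⟩, if_pos ⟨hv'.1.1, hv'.1.2.1⟩, if_pos hv, hraise v hr,
            hc0 v, hv'.1.2.1, hv'.2]
          ring
        · rw [if_neg hv, add_zero]
          by_cases hq : p v = w ∧ N.t1 v = b
          · rw [if_pos hq, if_pos hq]
            have hr : ¬ (low (p v) ∧ v ∈ R (p v) (N.t1 v)) := by
              rw [hq.1, hq.2]
              exact fun h => hv h.2
            rw [hnot v hr, hc0 v]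
          · rw [if_neg hq, if_neg hq]
      rw [Finset.sum_congr rfl fun v _ => h2 v, Finset.sum_add_distrib]
      have h3 : ∑ v, (if v ∈ R w b then (tg b - rh b (k w b)) else 0) =
          ((R w b).card : ℤ) * (tg b - rh b (k w b)) := by
        rw [Finset.sum_ite_mem, Finset.univ_inter, Finset.sum_const, nsmul_eq_mul]
      rw [h3]
      have h4 := hdiv w b hw
      have h5 : ∑ v, (if p v = w ∧ N.t1 v = b then N.c0 v - a v else 0) = T w b := rfl
      rw [h5]
      have h6 : T w b + ((R w b).card : ℤ) * (tg b - rh b (k w b)) - ts b w =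
          (T w b - ts b w) + (R w b).card * (tg b - rh b (k w b)) := by ring
      rw [h6]
      exact h4
    intro w hw
    exact ⟨hsum w true hw, hsum w false hw⟩

end Pool.Agent.MDG.H46
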